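import Pool.Agent.Y338.BG4

/-!
Subgroups of `ℤ^ℕ` of size continuum satisfying `S₁(B_Ω, B_Γ)`, from the continuum hypothesis.
-/

namespace Pool.Agent.Results.MP_cc0654_lc.GammaGroupCH

open Pool.Agent.Helper185.Sel

/-- The continuum hypothesis gives a subgroup `G` of `ℤ^ℕ` of cardinality continuum that satisfies
`S₁(B_Ω, B_Γ)` and `S₁(Ω, Γ)`. -/
theorem result : Cardinal.aleph 1 = Cardinal.continuum.{0} →
    ∃ G : AddSubgroup (ℕ → ℤ), Cardinal.mk G = Cardinal.continuum.{0} ∧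
      S1 (OmegaOf (BorelFam G)) (GammaOf (BorelFam G)) ∧
      S1 (OmegaOf (OpenFam G)) (GammaOf (OpenFam G)) :=
  Pool.Agent.Y338.BG.main

end Pool.Agent.Results.MP_cc0654_lc.GammaGroupCH
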